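import Pool.Agent.H5.Tame.NoAnosov
import Pool.Agent.H5.Tame.Model
import Pool.Agent.H5.Tame.TameFin

/-!
# A finitely generated torsion-free nilpotent group with a tame automorphism and no Anosov
automorphism

The group is built from the cubic field `K = ℚ(α)`, `α ^ 3 = α + 1`, which has one real and one
complex place.  Its rational Lie algebra is `K ⊕ K* ⊕ End(K)/K` (dimension `3 + 3 + 6`), i.e. the
free 3-step nilpotent Lie algebra on `K` modulo the two-dimensional subspace `K/ℚ` of its degree
three part `gl(K)/ℚ ⊗ det`.  All automorphisms act on `K` through multiplication by a unit `u`,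
and in degree three `u_2 / u_3` (times a sign) is an eigenvalue, where `u_3` is the complex
conjugate of `u_2`.
-/

set_option autoImplicit false

namespace Pool.Agent.Results.MP_82b8ed_al.TameNoAnosov

/-- `x` and `y` are `φ`-conjugate: `x = z * y * φ(z)⁻¹` for some `z`. -/
def TwistedConj {G : Type} [Group G] (φ : MulAut G) (x y : G) : Prop :=
  ∃ z : G, x = z * y * (φ z)⁻¹

/-- `φ`-conjugacy is an equivalence relation on `G`. -/
def twistedSetoid {G : Type} [Group G] (φ : MulAut G) : Setoid G where
  r := TwistedConj φ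
  iseqv :=
    { refl := fun x => ⟨1, by simp⟩
      symm := by
        rintro x y ⟨z, rfl⟩
        exact ⟨z⁻¹, by rw [map_inv]; group⟩
      trans := by
        rintro x y w ⟨z, rfl⟩ ⟨z', rfl⟩
        exact ⟨z * z', by rw [map_mul]; group⟩ }

/-- The Reidemeister number `R(φ)`, i.e. the number of `φ`-conjugacy classes, is finite. -/
def ReidemeisterFinite {G : Type} [Group G] (φ : MulAut G) : Prop :=
  Finite (Quotient (twistedSetoid φ))

/-- `φ` is tame: `R(φ ^ n) < ∞` for every integer `n > 0`. -/
def IsTame {G : Type} [Group G] (φ : MulAut G) : Prop :=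
  ∀ n : ℕ, 0 < n → ReidemeisterFinite (φ ^ n)

/-- Data exhibiting the finite-dimensional rational Lie algebra `𝔫` as the Lie algebra of the
rational Mal'cev completion of the group `N`.

`rep` is a faithful representation of `𝔫` by nilpotent elements of an associative `ℚ`-algebra `A`,
so that `exp (rep 𝔫)` is a torsion-free divisible nilpotent group with Lie algebra `𝔫`; the map
`x ↦ exp (rep (log x))` is an injective homomorphism from `N` to it, and every element `exp (rep v)`
has a positive power `exp (rep v) ^ k = exp (rep (k • v))` in the image of `N`. -/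
structure MalcevLie (N 𝔫 A : Type) [Group N] [LieRing 𝔫] [LieAlgebra ℚ 𝔫] [Ring A]
    [Algebra ℚ A] where
  /-- a linear map from the Lie algebra to an associative algebra -/
  rep : 𝔫 →ₗ[ℚ] A
  /-- `rep` takes brackets to commutators -/
  rep_lie : ∀ u v : 𝔫, rep ⁅u, v⁆ = rep u * rep v - rep v * rep u
  /-- `rep` is faithful -/
  rep_injective : Function.Injective rep
  /-- all elements of `𝔫` are represented by nilpotent elements -/
  rep_nilpotent : ∀ v : 𝔫, IsNilpotent (rep v)
  /-- the logarithm `N → 𝔫` -/
  log : N → 𝔫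
  /-- the logarithm is injective -/
  log_injective : Function.Injective log
  /-- `x ↦ exp (rep (log x))` is multiplicative -/
  exp_log_mul : ∀ x y : N, IsNilpotent.exp (rep (log (x * y))) =
    IsNilpotent.exp (rep (log x)) * IsNilpotent.exp (rep (log y))
  /-- every element of `𝔫` has a positive integer multiple in `log N` -/
  exists_log : ∀ v : 𝔫, ∃ k : ℕ, 0 < k ∧ ∃ x : N, log x = k • v

/-- `z` is an eigenvalue of the automorphism `φ` of `N`: a complex root of the characteristic
polynomial of the automorphism `Φ` which `φ` induces on the Lie algebra `𝔫` of the rational Mal'cev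
completion of `N` (that is, `Φ (log x) = log (φ x)` for all `x` in `N`). -/
def IsEigenvalue {N : Type} [Group N] (φ : MulAut N) (z : ℂ) : Prop :=
  ∃ (𝔫 A : Type) (_ : LieRing 𝔫) (_ : LieAlgebra ℚ 𝔫) (_ : Module.Finite ℚ 𝔫) (_ : Ring A)
    (_ : Algebra ℚ A) (M : MalcevLie N 𝔫 A) (Φ : 𝔫 ≃ₗ⁅ℚ⁆ 𝔫),
    (∀ x : N, Φ (M.log x) = M.log (φ x)) ∧
    ((Φ : 𝔫 →ₗ[ℚ] 𝔫).charpoly.map (algebraMap ℚ ℂ)).IsRoot z

/-- `φ` is Anosov: none of its eigenvalues has absolute value `1`. -/
def IsAnosov {N : Type} [Group N] (φ : MulAut N) : Prop :=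
  ∀ z : ℂ, IsEigenvalue φ z → ‖z‖ ≠ 1

/-- There is a finitely generated torsion-free nilpotent group which has a tame automorphism but
admits no Anosov automorphism. -/
theorem result : ∃ (N : Type) (_ : Group N),
    Group.FG N ∧ IsMulTorsionFree N ∧ Group.IsNilpotent N ∧
    (∃ φ : MulAut N, IsTame φ) ∧ ¬ ∃ φ : MulAut N, IsAnosov φ := by
  refine ⟨H5.Tame.N, inferInstance, inferInstance, inferInstance, inferInstance,
    ⟨H5.Tame.phiA, ?_⟩, ?_⟩
  · intro n hn
    obtain ⟨S, hS, h⟩ := H5.Tame.finite_classes hn
    have hfin : Finite S := hS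
    refine Finite.of_surjective
      (fun s : S => (Quotient.mk (twistedSetoid (H5.Tame.phiA ^ n)) (s : H5.Tame.N))) ?_
    intro q
    induction q using Quotient.inductionOn with
    | h g =>
      obtain ⟨s, hs, z, hz⟩ := h g
      refine ⟨⟨s, hs⟩, ?_⟩
      refine Quotient.sound ?_
      exact (twistedSetoid (H5.Tame.phiA ^ n)).iseqv.symm ⟨z, hz⟩
  · rintro ⟨φ, hφ⟩
    refine hφ (H5.Tame.zz φ) ?_ (H5.Tame.norm_zz φ)
    exact ⟨H5.Tame.L ℚ, Module.End ℚ (ℚ × H5.Tame.L ℚ), inferInstance, inferInstance,
      inferInstance, inferInstance, inferInstance,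
      { rep := H5.Tame.rep
        rep_lie := H5.Tame.rep_lie
        rep_injective := H5.Tame.rep_injective
        rep_nilpotent := H5.Tame.rep_nilpotent
        log := H5.Tame.logN
        log_injective := H5.Tame.logN_injective
        exp_log_mul := H5.Tame.exp_logN_mul
        exists_log := H5.Tame.exists_logN },
      H5.Tame.Phi φ, H5.Tame.Phi_logN φ, H5.Tame.isRoot_zz φ⟩

end Pool.Agent.Results.MP_82b8ed_al.TameNoAnosov
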